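import Pool.Agent.Run7.h696.CA.Iface

/-! Project CA (helper696), piece LINH (helper13): the hyperlogarithms are linearly independent over the ring of polynomials in z and the functions h. -/

set_option autoImplicit false

open PowerSeries

namespace Pool.Agent.Run7.h13.CA

open Pool.Agent.Run7.h696.CP Pool.Agent.Run7.h696.CA

theorem p_LINH : S_LINH := by
  classical
  intro hINDH m a N h T A hT hA hN q hq hsum
  -- the index set and the coefficients
  let ι : Type := {w : List (Option (Fin m)) // w ∈ q.support}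
  let v : ι → ℚ⟦X⟧ := fun i => MvPolynomial.aeval h (q i.1)
  obtain ⟨s, hs, hmax⟩ := exists_maximal_linearIndepOn (Polynomial ℚ) v
  have hsf : Fintype s := Fintype.ofFinite s
  have hlin : LinearIndependent (Polynomial ℚ) (fun b : s => MvPolynomial.aeval h (q b.1.1)) := hs
  set W : ℕ := q.support.sup List.length with hW
  have hind := hINDH m a N h T A hT hA hN s (fun b => q b.1.1) hlin W
  let em : ι → Wd m W := fun i => ⟨i.1, Finset.le_sup (f := List.length) i.2, hq i.1 i.2⟩
  have hem : Function.Injective em := by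
    intro i j hij
    exact Subtype.ext (congrArg (fun x : Wd m W => x.1) hij)
  have hind2 := hind.comp (fun p : s × ι => (p.1, em p.2)) (by
    intro p p' hp
    have h1 := congrArg Prod.fst hp
    have h2 := congrArg Prod.snd hp
    exact Prod.ext h1 (hem h2))
  -- torsion free
  have htf : ∀ (D : Polynomial ℚ) (x : ℚ⟦X⟧), D ≠ 0 → D • x = 0 → x = 0 := by
    intro D x hD hx
    rw [Algebra.smul_def] at hx
    have h1 : algebraMap (Polynomial ℚ) ℚ⟦X⟧ D ≠ 0 := by
      have h2 : algebraMap (Polynomial ℚ) ℚ⟦X⟧ D = (D : ℚ⟦X⟧) := rfl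
      rw [h2]
      exact fun h3 => hD (Polynomial.coe_eq_zero_iff.1 h3)
    exact (mul_eq_zero.1 hx).resolve_left h1
  -- denominators
  have hden : ∀ i : ι, ∃ (D : Polynomial ℚ) (c : s → Polynomial ℚ), D ≠ 0 ∧
      D • v i = ∑ b : s, c b • v b.1 := by
    intro i
    by_cases hi : i ∈ s
    · refine ⟨1, fun b => if b = ⟨i, hi⟩ then 1 else 0, one_ne_zero, ?_⟩
      rw [one_smul, Finset.sum_eq_single (⟨i, hi⟩ : s)]
      · simp
      · intro b _ hb
        beta_reduce
        rw [if_neg hb, zero_smul]
      · intro hn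
        exact absurd (Finset.mem_univ _) hn
    · obtain ⟨D, hD, hmem⟩ := hmax i hi
      rw [Set.image_eq_range] at hmem
      obtain ⟨c, hc⟩ := (Submodule.mem_span_range_iff_exists_fun _).1 hmem
      exact ⟨D, c, hD, hc.symm⟩
  choose D c hD hc using hden
  let En : ι → Polynomial ℚ := fun i => ∏ j ∈ Finset.univ.erase i, D j
  have hEn : ∀ i, En i ≠ 0 := fun i => Finset.prod_ne_zero_iff.2 fun j _ => hD j
  have hE : ∀ i, (∏ j, D j) = En i * D i := by
    intro i
    exact (Finset.prod_erase_mul Finset.univ D (Finset.mem_univ i)).symm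
  have hrel : ∑ p : s × ι, (En p.2 * c p.2 p.1) •
      ((fun p : s × Wd m W => MvPolynomial.aeval h (q p.1.1.1) * hy a p.2.1) ∘
        fun p : s × ι => (p.1, em p.2)) p = 0 := by
    rw [Fintype.sum_prod_type_right]
    have h1 : ∀ i : ι, ∑ b : s, (En i * c i b) •
        (((fun p : s × Wd m W => MvPolynomial.aeval h (q p.1.1.1) * hy a p.2.1) ∘
        fun p : s × ι => (p.1, em p.2)) (b, i)) =
        (∏ j, D j) • (v i * hy a i.1) := by
      intro i
      have h2 : ∀ b : s, (En i * c i b) •
        (((fun p : s × Wd m W => MvPolynomial.aeval h (q p.1.1.1) * hy a p.2.1) ∘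
        fun p : s × ι => (p.1, em p.2)) (b, i)) = (En i • (c i b • v b.1)) * hy a i.1 := by
        intro b
        rw [Function.comp, smul_smul, smul_mul_assoc]
      simp only [h2]
      rw [← Finset.sum_mul, ← Finset.smul_sum, ← hc i, smul_smul, ← hE i, smul_mul_assoc]
    simp only [h1]
    rw [← Finset.smul_sum]
    have h3 : ∑ i : ι, v i * hy a i.1 = 0 := by
      rw [← hsum, Finsupp.sum]
      exact (Finset.sum_coe_sort q.support (fun w => MvPolynomial.aeval h (q w) * hy a w))
    rw [h3, smul_zero]
  have hzero := Fintype.linearIndependent_iff.1 hind2 (fun p => En p.2 * c p.2 p.1) hrel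
  intro w
  by_cases hw : w ∈ q.support
  · have h4 : D ⟨w, hw⟩ • v ⟨w, hw⟩ = 0 := by
      rw [hc]
      refine Finset.sum_eq_zero fun b _ => ?_
      have h5 := hzero (b, ⟨w, hw⟩)
      have h6 := (mul_eq_zero.1 h5).resolve_left (hEn _)
      rw [h6, zero_smul]
    exact htf _ _ (hD _) h4
  · rw [Finsupp.notMem_support_iff.1 hw, map_zero]


end Pool.Agent.Run7.h13.CA
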