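import Pool.Agent.Run7.h696.CA.Iface

/-! Project CA (helper696), piece LINZH (helper13): polynomials in the values of characters are linear combinations (after Run7/h930/HP/LINZ.lean by helper930). -/

set_option autoImplicit false

open PowerSeries

namespace Pool.Agent.Run7.h13.CA

open Pool.Agent.Run7.h696.CP Pool.Agent.Run7.h696.CA

section
variable {m : ℕ} {τ A B : Type} [CommRing A] [CommRing B]

/-- the value of a linear combination -/
noncomputable def Phi (f : A →+* B) (y : τ → B) (x : List (Option (Fin m)) → B) :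
    (List (Option (Fin m)) →₀ MvPolynomial τ A) →+ B :=
  Finsupp.liftAddHom fun w =>
    (AddMonoidHom.mulRight (x w)).comp (MvPolynomial.eval₂Hom f y).toAddMonoidHom

theorem Phi_apply (f : A →+* B) (y : τ → B) (x : List (Option (Fin m)) → B)
    (q : List (Option (Fin m)) →₀ MvPolynomial τ A) :
    Phi f y x q = q.sum fun w p => MvPolynomial.eval₂ f y p * x w := rfl

theorem Phi_single (f : A →+* B) (y : τ → B) (x : List (Option (Fin m)) → B) (w : List (Option (Fin m)))
    (p : MvPolynomial τ A) :
    Phi f y x (Finsupp.single w p) = MvPolynomial.eval₂ f y p * x w := by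
  rw [Phi_apply, Finsupp.sum_single_index]
  rw [MvPolynomial.eval₂_zero, zero_mul]

end

theorem adm_nil (m : ℕ) : Adm ([] : List (Option (Fin m))) := by simp [Adm]

theorem p_LINZH : S_LINZH := by
  intro m τ A _ W R
  suffices h : ∃ q ∈ Finsupp.supported (MvPolynomial τ A) (MvPolynomial τ A) {w | Adm w},
      ∀ (B : Type) [CommRing B] (f : A →+* B) (y : τ → B) (x : List (Option (Fin m)) → B), Chr x →
      MvPolynomial.eval₂ f (Sum.elim y fun w => x w.1) R = Phi f y x q by
    obtain ⟨q, hq, hq2⟩ := h
    refine ⟨q, ?_, ?_⟩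
    · intro w hw
      exact (Finsupp.mem_supported _ _).1 hq hw
    · intro B _ f y x hx
      exact hq2 B f y x hx
  induction R using MvPolynomial.induction_on with
  | C a =>
    refine ⟨Finsupp.single [] (MvPolynomial.C a), Finsupp.single_mem_supported _ _ (adm_nil m), ?_⟩
    intro B _ f y x hx
    rw [Phi_single, MvPolynomial.eval₂_C, MvPolynomial.eval₂_C, hx.one, mul_one]
  | add p q hp hq =>
    obtain ⟨p', hp1, hp2⟩ := hp
    obtain ⟨q', hq1, hq2⟩ := hq
    refine ⟨p' + q', add_mem hp1 hq1, ?_⟩
    intro B _ f y x hx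
    rw [MvPolynomial.eval₂_add, map_add, hp2 B f y x hx, hq2 B f y x hx]
  | mul_X p i hp =>
    obtain ⟨p', hp1, hp2⟩ := hp
    rcases i with t | w
    · refine ⟨p'.sum fun u r => Finsupp.single u (r * MvPolynomial.X t), ?_, ?_⟩
      · refine sum_mem fun u hu => ?_
        exact Finsupp.single_mem_supported _ _ ((Finsupp.mem_supported _ _).1 hp1 hu)
      · intro B _ f y x hx
        rw [MvPolynomial.eval₂_mul, MvPolynomial.eval₂_X, hp2 B f y x hx, Sum.elim_inl,
          map_finsuppSum, Phi_apply, Finsupp.sum, Finsupp.sum, Finset.sum_mul]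
        refine Finset.sum_congr rfl fun u _ => ?_
        rw [Phi_single, MvPolynomial.eval₂_mul, MvPolynomial.eval₂_X]
        ring
    · refine ⟨p'.sum fun u r => ((sh u w.1).map fun v => Finsupp.single v r).sum, ?_, ?_⟩
      · refine sum_mem fun u hu => ?_
        refine list_sum_mem fun z hz => ?_
        obtain ⟨v, hv, rfl⟩ := List.mem_map.1 hz
        exact Finsupp.single_mem_supported _ _
          (sh_adm ((Finsupp.mem_supported _ _).1 hp1 hu) w.2.2 hv)
      · intro B _ f y x hx
        rw [MvPolynomial.eval₂_mul, MvPolynomial.eval₂_X, hp2 B f y x hx, Sum.elim_inr,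
          map_finsuppSum, Phi_apply, Finsupp.sum, Finsupp.sum, Finset.sum_mul]
        refine Finset.sum_congr rfl fun u hu => ?_
        rw [map_list_sum, List.map_map, mul_assoc,
          hx.mul u w.1 ((Finsupp.mem_supported _ _).1 hp1 hu) w.2.2, ← List.sum_map_mul_left]
        congr 1
        refine List.map_congr_left fun v _ => ?_
        rw [Function.comp, Phi_single]


end Pool.Agent.Run7.h13.CA
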