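import Pool.Agent.Run7.h696.CA.Iface

/-! Project CA (helper696), piece SHUFH (helper13): the shuffle relations (after Run7/h930/HP/SHUF.lean by helper930). -/

set_option autoImplicit false

open PowerSeries

namespace Pool.Agent.Run7.h13.CA

open Pool.Agent.Run7.h696.CP Pool.Agent.Run7.h696.CA

variable {m : ℕ} (a : Fin m → ℤ)

theorem coeff_hy (w : List (Option (Fin m))) (k : ℕ) : coeff k (hy a w) = co a w k := by
  unfold hy
  rw [coeff_mk]

theorem hy_nil : hy a [] = 1 := by
  ext k
  rw [coeff_hy, coeff_one]
  rfl

theorem co_zero {w : List (Option (Fin m))} (hw : w ≠ []) : co a w 0 = 0 := by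
  rcases w with _ | ⟨b, w⟩
  · exact absurd rfl hw
  · cases b with
    | none =>
      show co a w 0 / ((0 : ℕ) : ℚ) = 0
      simp
    | some i =>
      show (∑ j ∈ Finset.range 0, (a i : ℚ) ^ (0 - 1 - j) * co a w j) / ((0 : ℕ) : ℚ) = 0
      simp

/-- the forms -/
noncomputable def phi : Option (Fin m) → ℚ⟦X⟧
  | none => 1
  | some i => PowerSeries.mk fun k => if k = 0 then 0 else (a i : ℚ) ^ (k - 1)

theorem th_coeff (f : ℚ⟦X⟧) (k : ℕ) : coeff k (X * d⁄dX ℚ f) = k * coeff k f := by
  cases k with
  | zero => simp
  | succ n =>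
    rw [mul_comm X, coeff_succ_mul_X, coeff_derivative]
    push_cast
    ring

theorem th_cons {b : Option (Fin m)} {u : List (Option (Fin m))} (h : Adm (b :: u)) :
    X * d⁄dX ℚ (hy a (b :: u)) = phi a b * hy a u := by
  ext k
  rw [th_coeff, coeff_hy]
  cases b with
  | none =>
    have hu : u ≠ [] := by
      rintro rfl
      exact h rfl
    show (k : ℚ) * (co a u k / k) = _
    simp only [phi]
    rw [one_mul, coeff_hy]
    rcases Nat.eq_zero_or_pos k with rfl | hk
    · rw [co_zero a hu]; simp
    · have : (k : ℚ) ≠ 0 := by positivity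
      field_simp
  | some i =>
    show (k : ℚ) * ((∑ j ∈ Finset.range k, (a i : ℚ) ^ (k - 1 - j) * co a u j) / k) = _
    rcases Nat.eq_zero_or_pos k with rfl | hk
    · simp [phi]
    · have : (k : ℚ) ≠ 0 := by positivity
      rw [mul_div_cancel₀ _ this, coeff_mul,
        Finset.Nat.sum_antidiagonal_eq_sum_range_succ
          (fun p q => coeff p (phi a (some i)) * coeff q (hy a u)),
        Finset.sum_range_succ', ← Finset.sum_range_reflect]
      simp only [phi, coeff_mk, if_true, zero_mul, add_zero]
      refine Finset.sum_congr rfl fun j hj => ?_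
      rw [Finset.mem_range] at hj
      rw [coeff_hy, if_neg (by omega)]
      have e1 : k - 1 - (k - 1 - j) = j + 1 - 1 := by omega
      have e2 : k - 1 - j = k - (j + 1) := by omega
      rw [e1, e2]

theorem eq_of_th {f g : ℚ⟦X⟧} (h0 : constantCoeff f = constantCoeff g)
    (h : X * d⁄dX ℚ f = X * d⁄dX ℚ g) : f = g := by
  ext k
  rcases Nat.eq_zero_or_pos k with rfl | hk
  · rw [coeff_zero_eq_constantCoeff_apply, coeff_zero_eq_constantCoeff_apply, h0]
  · have h1 := congrArg (coeff k) h
    rw [th_coeff, th_coeff] at h1
    have : (k : ℚ) ≠ 0 := by positivity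
    exact mul_left_cancel₀ this h1

theorem hy_const {w : List (Option (Fin m))} (hw : w ≠ []) : constantCoeff (hy a w) = 0 := by
  rw [← coeff_zero_eq_constantCoeff_apply, coeff_hy, co_zero a hw]

/-- the derivation -/
noncomputable def th : ℚ⟦X⟧ →+ ℚ⟦X⟧ where
  toFun f := X * d⁄dX ℚ f
  map_zero' := by simp
  map_add' f g := by rw [map_add, mul_add]

theorem th_apply (f : ℚ⟦X⟧) : th f = X * d⁄dX ℚ f := rfl

theorem th_mul (f g : ℚ⟦X⟧) : th (f * g) = th f * g + f * th g := by
  rw [th_apply, th_apply, th_apply, Derivation.leibniz, smul_eq_mul, smul_eq_mul]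
  ring

theorem shuf (n : ℕ) : ∀ u v : List (Option (Fin m)), u.length + v.length ≤ n → Adm u → Adm v →
    hy a u * hy a v = ((sh u v).map (hy a)).sum := by
  induction n with
  | zero =>
    intro u v h _ _
    have hu : u = [] := List.length_eq_zero_iff.1 (by omega)
    have hv : v = [] := List.length_eq_zero_iff.1 (by omega)
    subst hu
    subst hv
    rw [sh, hy_nil]
    simp [hy_nil]
  | succ n ih =>
    intro u v h hu hv
    rcases u with _ | ⟨b, u⟩
    · rw [sh, hy_nil]
      simp
    rcases v with _ | ⟨b2, v⟩
    · rw [sh, hy_nil]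
      simp
    have hu' := Adm_cons hu
    have hv' := Adm_cons hv
    simp only [List.length_cons] at h
    have h1 := ih u (b2 :: v) (by simp only [List.length_cons]; omega) hu' hv
    have h2 := ih (b :: u) v (by simp only [List.length_cons]; omega) hu hv'
    have e1 : ∀ w ∈ sh u (b2 :: v), th (hy a (b :: w)) = phi a b * hy a w := by
      intro w hw
      refine th_cons a (Adm_of_ne (sh_adm hu' hv hw) ?_)
      rintro rfl
      have := sh_length hw
      simp at this
    have e2 : ∀ w ∈ sh (b :: u) v, th (hy a (b2 :: w)) = phi a b2 * hy a w := by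
      intro w hw
      refine th_cons a (Adm_of_ne (sh_adm hu hv' hw) ?_)
      rintro rfl
      have := sh_length hw
      simp only [List.length_nil, List.length_cons] at this
      omega
    apply eq_of_th
    · rw [map_mul, hy_const a (List.cons_ne_nil b u), zero_mul, map_list_sum, List.map_map]
      symm
      apply List.sum_eq_zero
      intro z hz
      obtain ⟨w, hw, rfl⟩ := List.mem_map.1 hz
      refine hy_const a ?_
      rintro rfl
      have := sh_length hw
      simp at this
    · rw [← th_apply, ← th_apply, th_mul, th_apply (hy a (b :: u)), th_cons a hu,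
        th_apply (hy a (b2 :: v)),
        th_cons a hv, sh, List.map_append, List.sum_append, map_add, List.map_map, List.map_map,
        map_list_sum, map_list_sum, List.map_map, List.map_map]
      have e3 : (List.map (th ∘ hy a ∘ fun x => b :: x) (sh u (b2 :: v))).sum =
          phi a b * ((sh u (b2 :: v)).map (hy a)).sum := by
        rw [← List.sum_map_mul_left]
        congr 1
        exact List.map_congr_left fun w hw => e1 w hw
      have e4 : (List.map (th ∘ hy a ∘ fun x => b2 :: x) (sh (b :: u) v)).sum =
          phi a b2 * ((sh (b :: u) v).map (hy a)).sum := by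
        rw [← List.sum_map_mul_left]
        congr 1
        exact List.map_congr_left fun w hw => e2 w hw
      rw [e3, e4, ← h1, ← h2]
      ring

theorem p_SHUFH : S_SHUFH := fun _ a =>
  ⟨hy_nil a, fun u v hu hv => shuf a _ u v le_rfl hu hv⟩


end Pool.Agent.Run7.h13.CA
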